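import Pool.Agent.H93.CP.Targets

/-!
# Compact spaces are the whole topological Vaught conjecture: the limit of the homeomorphisms
-/

set_option autoImplicit false
set_option linter.unusedVariables false

open Set Filter Topology Pool.Agent.H93.CP

namespace Pool.Agent.H10.CPT

private theorem chain {E : Type} (β : ℕ → List E) (h : ∀ n, β n <+: β (n + 1)) (n m : ℕ)
    (hnm : n ≤ m) : β n <+: β m := by
  induction m, hnm using Nat.le_induction with
  | base => exact List.prefix_rfl
  | succ m _ ih => exact ih.trans (h m)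

theorem pf_LMH (hPWD : T_PWD) (hPRP : T_PRP) (hPCO : T_PCO) : T_LMH := by
  intro G _ _ S b z β ζ γ hs
  classical
  obtain ⟨-, hlin, hinf, -, -, -, -, heq⟩ := hPWD G S
  obtain ⟨hcomp, ht2, -, -, -, -⟩ := hPCO G S
  have hpre : ∀ (u w : List S.E) (y : S.Path), u <+: w → S.Mem w y → S.Mem u y :=
    fun u w y h hw => y.2.pre u w h hw
  have hβ := chain β hs.preb
  have hζ := chain ζ hs.prez
  -- the limit points
  have hInf : ∀ (ξ : ℕ → List S.E) (x : S.Path), (∀ n, S.Mem (ξ n) x) →
      (∀ n, n ≤ (ξ n).length) → S.Inf x := by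
    intro ξ x h1 h2
    rw [hinf]
    intro n
    refine ⟨(ξ n).take n, hpre _ _ _ (List.take_prefix _ _) (h1 n), ?_⟩
    rw [List.length_take, min_eq_left (h2 n)]
  have hb : S.Inf b := hInf β b hs.memb hs.lenb
  have hz : S.Inf z := hInf ζ z hs.memz hs.lenz
  have hb1 : ∀ y : S.Path, (∀ n, S.Mem (β n) y) → y = b := fun y hy =>
    (heq b y hb fun n => ⟨β n, hs.lenb n, hs.memb n, hy n⟩).symm
  have hz1 : ∀ x : S.Path, (∀ n, S.Mem (ζ n) x) → x = z := fun x hx =>
    (heq z x hz fun n => ⟨ζ n, hs.lenz n, hs.memz n, hx n⟩).symm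
  -- stability
  have hst : ∀ n m, n ≤ m → ∀ y, ¬ S.Mem (β n) y → (γ m).h y = (γ n).h y := by
    intro n m hnm
    induction m, hnm using Nat.le_induction with
    | base => intro y _; rfl
    | succ m hm ih =>
      intro y hy
      rw [(hs.out m y fun h => hy (hpre _ _ _ (hβ n m hm) h)).1]
      exact ih y hy
  have hst' : ∀ n m, n ≤ m → ∀ x, ¬ S.Mem (ζ n) x → (γ m).h.symm x = (γ n).h.symm x := by
    intro n m hnm
    induction m, hnm using Nat.le_induction with
    | base => intro x _; rfl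
    | succ m hm ih =>
      intro x hx
      rw [hs.outz m x fun h => hx (hpre _ _ _ (hζ n m hm) h)]
      exact ih x hx
  -- the map and its inverse
  obtain ⟨h, hh⟩ : ∃ h : S.Path → S.Path, h b = z ∧
      ∀ n y, ¬ S.Mem (β n) y → h y = (γ n).h y := by
    refine ⟨fun y => if hy : ∃ n, ¬ S.Mem (β n) y then (γ (Nat.find hy)).h y else z, ?_, ?_⟩
    · show (if hy : ∃ n, ¬ S.Mem (β n) b then (γ (Nat.find hy)).h b else z) = z
      rw [dif_neg]
      rintro ⟨n, hn⟩
      exact hn (hs.memb n)
    · intro n y hn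
      show (if hy : ∃ n, ¬ S.Mem (β n) y then (γ (Nat.find hy)).h y else z) = (γ n).h y
      have hy : ∃ n, ¬ S.Mem (β n) y := ⟨n, hn⟩
      rw [dif_pos hy]
      exact (hst _ n (Nat.find_min' hy hn) y (Nat.find_spec hy)).symm
  obtain ⟨h', hh'⟩ : ∃ h' : S.Path → S.Path, h' z = b ∧
      ∀ n x, ¬ S.Mem (ζ n) x → h' x = (γ n).h.symm x := by
    refine ⟨fun x => if hx : ∃ n, ¬ S.Mem (ζ n) x then (γ (Nat.find hx)).h.symm x else b, ?_, ?_⟩
    · show (if hx : ∃ n, ¬ S.Mem (ζ n) z then (γ (Nat.find hx)).h.symm z else b) = b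
      rw [dif_neg]
      rintro ⟨n, hn⟩
      exact hn (hs.memz n)
    · intro n x hn
      show (if hx : ∃ n, ¬ S.Mem (ζ n) x then (γ (Nat.find hx)).h.symm x else b) =
        (γ n).h.symm x
      have hx : ∃ n, ¬ S.Mem (ζ n) x := ⟨n, hn⟩
      rw [dif_pos hx]
      exact (hst' _ n (Nat.find_min' hx hn) x (Nat.find_spec hx)).symm
  have hl : ∀ y, h' (h y) = y := by
    intro y
    by_cases hy : ∃ n, ¬ S.Mem (β n) y
    · obtain ⟨n, hn⟩ := hy
      rw [hh.2 n y hn, hh'.2 n _ fun h1 => hn (hs.onto n y h1), Homeomorph.symm_apply_apply]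
    · push Not at hy
      rw [hb1 y hy, hh.1, hh'.1]
  have hr : ∀ x, h (h' x) = x := by
    intro x
    by_cases hx : ∃ n, ¬ S.Mem (ζ n) x
    · obtain ⟨n, hn⟩ := hx
      have h1 : ¬ S.Mem (β n) ((γ n).h.symm x) := by
        intro h2
        have h3 := (hs.rep n _ h2).1.2.1
        rw [Homeomorph.apply_symm_apply] at h3
        exact hn h3
      rw [hh'.2 n x hn, hh.2 n _ h1, Homeomorph.apply_symm_apply]
    · push Not at hx
      rw [hz1 x hx, hh'.1, hh.1]
  -- the words of length at most `n`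
  have hm : ∀ n m, n ≤ m → ∀ y, S.Mem (β n) y → S.Mem (ζ n) ((γ m).h y) := by
    intro n m hnm
    induction m, hnm using Nat.le_induction with
    | base => intro y hy; exact (hs.rep n y hy).1.2.1
    | succ m hm ih =>
      intro y hy
      by_contra hc
      have h1 := hs.outz m ((γ (m + 1)).h y) fun h2 => hc (hpre _ _ _ (hζ n m hm) h2)
      rw [Homeomorph.symm_apply_apply] at h1
      have h2 := ih y hy
      rw [h1, Homeomorph.apply_symm_apply] at h2
      exact hc h2
  have hw : ∀ (w : List S.E) (y : S.Path), S.Mem w (h y) ↔ S.Mem w ((γ w.length).h y) := by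
    intro w y
    by_cases hy : S.Mem (β w.length) y
    · have h1 : S.Mem (ζ w.length) (h y) := by
        by_cases hy' : ∃ n, ¬ S.Mem (β n) y
        · obtain ⟨n, hn⟩ := hy'
          rw [hh.2 n y hn]
          refine hm w.length n ?_ y hy
          by_contra hc
          exact hn (hpre _ _ _ (hβ n w.length (by omega)) hy)
        · push Not at hy'
          rw [hb1 y hy', hh.1]
          exact hs.memz _
      have h2 := hm w.length w.length le_rfl y hy
      have h3 : ∀ x : S.Path, S.Mem (ζ w.length) x → (S.Mem w x ↔ w <+: ζ w.length) :=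
        fun x hx => ⟨fun h4 => hlin x w _ h4 hx (hs.lenz _), fun h4 => hpre _ _ _ h4 hx⟩
      rw [h3 _ h1, h3 _ h2]
    · rw [hh.2 _ y hy]
  have hcont : Continuous h := by
    refine Continuous.subtype_mk (f := fun y => (h y).1) ?_ (fun y => (h y).2)
    refine continuous_pi fun w => ?_
    have h1 : (fun y : S.Path => (h y).1 w) = fun y => ((γ w.length).h y).1 w := by
      funext y
      rw [Bool.eq_iff_iff]
      exact hw w y
    rw [h1]
    exact (continuous_apply w).comp (continuous_subtype_val.comp (γ w.length).h.continuous)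
  let e : S.Path ≃ S.Path := ⟨h, h', hl, hr⟩
  have he : Continuous e := hcont
  exact ⟨he.homeoOfEquivCompactToT2, hh.1, hh.2⟩

end Pool.Agent.H10.CPT
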