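import Pool.Agent.H93.CP.Targets

/-!
# Compact spaces are the whole topological Vaught conjecture: the zigzag
-/

set_option autoImplicit false

open Set Filter Topology Pool.Agent.H93.CP

namespace Pool.Agent.H10.CPT

section

variable {G X : Type} [Group G] [TopologicalSpace G] [MulAction G X] [MeasurableSpace X]
  {H : Good G X} (C : Sch H)

/-- the quotient of the products of the labels -/
private def PP (ζ β : List C.gr.E) : G := C.gr.pr ζ * (C.gr.pr β)⁻¹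

/-- half of a step -/
private theorem half (hSTP : T_STP) (hNES : T_NES) (hPWD : T_PWD) (b b' : C.gr.Path)
    (y y' : H.Y) (m : G) (hb' : C.gr.Inf b') (hy : C.Pt b y) (hy' : C.Pt b' y')
    (hm : m • H.ι y = H.ι y') (ζ β β₀ : List C.gr.E) (hζ : C.gr.Leg C.gr.root ζ)
    (hβ : C.gr.Mem β b) (hf : C.gr.fin C.gr.root β = C.gr.fin C.gr.root ζ)
    (N : Set G) (hN : N ∈ 𝓝 (PP C ζ β * m⁻¹)) :
    ∃ (β' : List C.gr.E) (e : C.gr.E), C.gr.Mem β' b' ∧ β₀.length < β'.length ∧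
      C.gr.Leg C.gr.root (ζ ++ [e]) ∧
      C.gr.fin C.gr.root β' = C.gr.fin C.gr.root (ζ ++ [e]) ∧ PP C (ζ ++ [e]) β' ∈ N := by
  obtain ⟨hpr, -, -, -, -, -, -⟩ := hNES G X H C
  obtain ⟨-, -, hinf, -, -, -, -, -⟩ := hPWD G C.gr
  set p : H.D := C.prD ζ * (C.prD β)⁻¹ with hp
  have hpP : PP C ζ β = (p : G) := by
    unfold PP
    rw [hpr, hpr, hp]
    rfl
  have hv : p • y ∈ C.W ζ := by
    obtain ⟨u, hu, hu'⟩ := hy β hβ
    refine ⟨u, ?_, ?_⟩
    · rw [← hf]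
      exact hu
    · show C.prD ζ • u = p • y
      rw [← hu', hp]
      show C.prD ζ • u = (C.prD ζ * (C.prD β)⁻¹) • (C.prD β • u)
      rw [mul_smul, inv_smul_smul]
  have hq : ((p : G) * m⁻¹) • H.ι y' = H.ι (p • y) := by
    rw [mul_smul, ← hm, inv_smul_smul, H.smul]
  rw [hpP] at hN
  obtain ⟨p', hp', k, hk⟩ := hSTP G X H C ζ b' y' (p • y) ((p : G) * m⁻¹) hζ hb' hy' hq hv N hN
  obtain ⟨w, hw, hwl⟩ := (hinf b').1 hb' (max k (β₀.length + 1))
  obtain ⟨e, he1, he2, he3⟩ := hk w hw (by rw [hwl]; exact le_max_left _ _)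
  refine ⟨w, e, hw, ?_, he1, he2.symm, ?_⟩
  · rw [hwl]
    exact lt_of_lt_of_le (Nat.lt_succ_self _) (le_max_right _ _)
  · have h1 : PP C (ζ ++ [e]) w = (p' : G) := by
      unfold PP
      rw [hpr, hpr, he3]
      push_cast
      rw [mul_inv_cancel_right]
    rw [h1]
    exact hp'

/-- the states -/
private def St (b b' : C.gr.Path) : Type :=
  {x : List C.gr.E × List C.gr.E × List C.gr.E // C.gr.Leg C.gr.root x.1 ∧ C.gr.Mem x.2.1 b ∧
    C.gr.fin C.gr.root x.2.1 = C.gr.fin C.gr.root x.1 ∧ C.gr.Mem x.2.2 b'}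

end

theorem pf_ZIG (hSTP : T_STP) (hNES : T_NES) (hPWD : T_PWD) (hPMK : T_PMK) : T_ZIG := by
  intro G X _ _ _ _ _ _ H C b b' y y' m hb hb' hy hy' hm
  letI := TopologicalSpace.upgradeIsCompletelyMetrizable G
  have hm' : m⁻¹ • H.ι y' = H.ι y := by rw [← hm, inv_smul_smul]
  obtain ⟨-, hlin, -, -, -, -, -, -⟩ := hPWD G C.gr
  -- one step
  have hstep : ∀ (n : ℕ) (s : St C b b'), ∃ (t : St C b b') (ζ' β' : List C.gr.E),
      C.gr.Mem β' b' ∧ s.1.2.2.length < β'.length ∧ s.1.2.1.length < t.1.2.1.length ∧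
      s.1.1 <+: ζ' ∧ ζ' <+: t.1.1 ∧ s.1.1.length < ζ'.length ∧ ζ'.length < t.1.1.length ∧
      C.gr.fin C.gr.root β' = C.gr.fin C.gr.root ζ' ∧ t.1.2.2 = β' ∧
      dist (PP C ζ' β' * m) (PP C s.1.1 s.1.2.1) < (1 / 2 : ℝ) ^ n ∧
      dist (PP C t.1.1 t.1.2.1) (PP C ζ' β' * m) < (1 / 2 : ℝ) ^ n := by
    intro n s
    obtain ⟨⟨ζ, β, β₀⟩, h1, h2, h3, h4⟩ := s
    have hpos : (0 : ℝ) < (1 / 2 : ℝ) ^ n := by positivity
    have hN : {g : G | dist (g * m) (PP C ζ β) < (1 / 2 : ℝ) ^ n} ∈ 𝓝 (PP C ζ β * m⁻¹) := by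
      have hc : Continuous fun g : G => g * m := continuous_mul_const m
      have h5 : Metric.ball (PP C ζ β) ((1 / 2 : ℝ) ^ n) ∈ 𝓝 ((PP C ζ β * m⁻¹) * m) := by
        rw [inv_mul_cancel_right]
        exact Metric.ball_mem_nhds _ hpos
      exact hc.continuousAt.preimage_mem_nhds h5
    obtain ⟨β', e, g1, g2, g3, g4, g5⟩ := half C hSTP hNES hPWD b b' y y' m hb' hy hy' hm
      ζ β β₀ h1 h2 h3 _ hN
    have hN' : {g : G | dist g (PP C (ζ ++ [e]) β' * m) < (1 / 2 : ℝ) ^ n} ∈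
        𝓝 (PP C (ζ ++ [e]) β' * (m⁻¹)⁻¹) := by
      rw [inv_inv]
      exact Metric.ball_mem_nhds _ hpos
    obtain ⟨β₁, e', k1, k2, k3, k4, k5⟩ := half C hSTP hNES hPWD b' b y' y m⁻¹ hb hy' hy hm'
      (ζ ++ [e]) β' β g3 g1 g4 _ hN'
    refine ⟨⟨⟨ζ ++ [e] ++ [e'], β₁, β'⟩, k3, k1, k4, g1⟩, ζ ++ [e], β', g1, g2, k2,
      List.prefix_append _ _, List.prefix_append _ _, ?_, ?_, g4, rfl, g5, k5⟩
    · simp
    · simp
  choose nx ζ' β' hx using hstep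
  let s0 : St C b b' := ⟨⟨[], [], []⟩, trivial, b.2.nil, rfl, b'.2.nil⟩
  let s : ℕ → St C b b' := fun n => Nat.rec s0 (fun n t => nx n t) n
  have hs : ∀ n, s (n + 1) = nx n (s n) := fun n => rfl
  set ζ : ℕ → List C.gr.E := fun n => (s n).1.1 with hζd
  set β : ℕ → List C.gr.E := fun n => (s n).1.2.1 with hβd
  set ζ₁ : ℕ → List C.gr.E := fun n => ζ' n (s n) with hζ1
  set β₁ : ℕ → List C.gr.E := fun n => β' n (s n) with hβ1
  have hmb : ∀ n, C.gr.Mem (β n) b := fun n => (s n).2.2.1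
  have hmb' : ∀ n, C.gr.Mem (β₁ n) b' := fun n => (hx n (s n)).1
  have hβlen : ∀ n, (β n).length < (β (n + 1)).length := fun n => (hx n (s n)).2.2.1
  have hβ1len : ∀ n, (β₁ n).length < (β₁ (n + 1)).length := by
    intro n
    have h1 := (hx (n + 1) (s (n + 1))).2.1
    have h2 : (s (n + 1)).1.2.2 = β₁ n := (hx n (s n)).2.2.2.2.2.2.2.2.1
    rw [h2] at h1
    exact h1
  have hp1 : ∀ n, ζ n <+: ζ₁ n := fun n => (hx n (s n)).2.2.2.1
  have hp2 : ∀ n, ζ₁ n <+: ζ (n + 1) := fun n => (hx n (s n)).2.2.2.2.1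
  have hl1 : ∀ n, (ζ n).length < (ζ₁ n).length := fun n => (hx n (s n)).2.2.2.2.2.1
  have hl2 : ∀ n, (ζ₁ n).length < (ζ (n + 1)).length := fun n => (hx n (s n)).2.2.2.2.2.2.1
  have hf1 : ∀ n, C.gr.fin C.gr.root (β₁ n) = C.gr.fin C.gr.root (ζ₁ n) := fun n =>
    (hx n (s n)).2.2.2.2.2.2.2.1
  have hd1 : ∀ n, dist (PP C (ζ₁ n) (β₁ n) * m) (PP C (ζ n) (β n)) < (1 / 2 : ℝ) ^ n := fun n =>
    (hx n (s n)).2.2.2.2.2.2.2.2.2.1
  have hd2 : ∀ n, dist (PP C (ζ (n + 1)) (β (n + 1))) (PP C (ζ₁ n) (β₁ n) * m) <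
      (1 / 2 : ℝ) ^ n := fun n => (hx n (s n)).2.2.2.2.2.2.2.2.2.2
  have hζp : ∀ n, ζ n <+: ζ (n + 1) := fun n => (hp1 n).trans (hp2 n)
  have hζl : ∀ n, n ≤ (ζ n).length := by
    intro n
    induction n with
    | zero => exact Nat.zero_le _
    | succ n ih =>
      have := hl1 n
      have := hl2 n
      omega
  have hβl : ∀ n, n ≤ (β n).length := by
    intro n
    induction n with
    | zero => exact Nat.zero_le _
    | succ n ih =>
      have := hβlen n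
      omega
  have hβ1l : ∀ n, n ≤ (β₁ n).length := by
    intro n
    induction n with
    | zero => exact Nat.zero_le _
    | succ n ih =>
      have := hβ1len n
      omega
  obtain ⟨z, hz1, hz2⟩ := hPMK G C.gr ζ (fun n => (s n).2.1) hζp hζl
  -- convergence
  have hcau : CauchySeq fun n => PP C (ζ n) (β n) := by
    refine cauchySeq_of_le_geometric (1 / 2) 2 (by norm_num) fun n => ?_
    have h1 := hd1 n
    have h2 := hd2 n
    rw [dist_comm] at h1 h2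
    have h3 := dist_triangle (PP C (ζ n) (β n)) (PP C (ζ₁ n) (β₁ n) * m)
      (PP C (ζ (n + 1)) (β (n + 1)))
    linarith
  obtain ⟨p, hp⟩ := cauchySeq_tendsto_of_complete hcau
  have hp' : Tendsto (fun n => PP C (ζ₁ n) (β₁ n) * m) atTop (𝓝 p) := by
    refine (tendsto_iff_of_dist ?_).1 hp
    refine squeeze_zero (fun n => dist_nonneg) (fun n => ?_)
      (tendsto_pow_atTop_nhds_zero_of_lt_one (by norm_num : (0 : ℝ) ≤ 1 / 2) (by norm_num))
    rw [dist_comm]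
    exact (hd1 n).le
  have hp'' : Tendsto (fun n => PP C (ζ₁ n) (β₁ n)) atTop (𝓝 (p * m⁻¹)) := by
    have h1 := hp'.mul_const m⁻¹
    simp only [mul_inv_cancel_right] at h1
    exact h1
  refine ⟨z, hz1, ⟨p, β, ζ, hmb, hz2, fun n => (s n).2.2.2.1, fun n => ?_, hζp, hβl, hζl, hp⟩,
    p * m⁻¹, β₁, ζ₁, hmb', fun n => ?_, hf1, fun n => ?_, fun n => ?_, hβ1l, fun n => ?_, hp''⟩
  · exact hlin b _ _ (hmb n) (hmb (n + 1)) (hβlen n).le
  · exact z.2.pre _ _ (hp2 n) (hz2 (n + 1))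
  · exact hlin b' _ _ (hmb' n) (hmb' (n + 1)) (hβ1len n).le
  · exact (hp2 n).trans (hp1 (n + 1))
  · exact (hζl n).trans (hl1 n).le

end Pool.Agent.H10.CPT
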